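import Mathlib
import Pool.Agent.Helper503_AD.JorFin

/-!
# Zeros of order `r` come from an abelian extension of an extension of bounded degree

`Pool.Agent.H541R3.ART.Irr G` is the set of irreducible complex characters of the finite group `G`.

`Pool.Agent.H541R3.ART.ArtinData G s₀` is a family of functions with the formal properties of the
Artin L-functions of a Galois extension `E/K` with group `G` near a point `s₀ ≠ 1`: functions
`L χ` for the irreducible characters `χ` of `G` and `Lin H ψ` for the linear characters `ψ` of the
subgroups `H`, such that `L χ` is meromorphic and not identically zero near `s₀` (Brauer), `Lin H ψ`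
has no pole at `s₀` (Artin reciprocity and Hecke), and `Lin H ψ` is the product of the
`L χ ^ ⟨χ|_H, ψ⟩` (induction). So `Lin H ψ` stands for the Hecke L-function of `ψ` over the fixed
field of `H`, and `Lin ⊥ 1` for the Dedekind zeta function of `E`.

Stark proved that the zeros and poles of the `L χ` at a simple zero of `ζ_E` come from the maximal
abelian subextension of `E/K`: they occur only for linear `χ`. Here this is generalized to zeros of
any order `r`, for solvable `G`: there is a Galois extension `K'/K` inside `E`, of degree at most
`19 ^ r` (and at most `2 ^ (34 (r - 1) / 5)`, so that `K' = K` for `r = 1`), such that the zeros and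
poles of the `L χ` at `s₀` come from the maximal abelian subextension of `E/K'`. So the zero of `ζ_E`
at `s₀` is explained by Hecke L-functions of the field `K'` of bounded degree; the L-functions of all
other `χ` are holomorphic and nonzero at `s₀`.  An exponential bound is best possible: there are
solvable permutation groups of degree `r` and of order `24 ^ ((r - 1) / 3)`.

Proof.  The orders of the `L χ` at `s₀` are the multiplicities of a Heilbronn function `θ` of degree
`r`. One may assume that the intersection of the kernels of the `χ` which occur in `θ` is trivial.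
Let `A` be a maximal abelian normal subgroup of `G` in `S`. The restriction `θ|_A` is a genuine
character of degree `r`, and its `k` different linear constituents `μ`, of multiplicities `m_μ`,
separate the elements of `A`. So `S / C`, where `C` is the centralizer of `A` in `S`, is a solvable
permutation group of degree `k`, of order at most `3 ^ (k - 1)` (Dixon). Let `F / A` be the socle of
`C / A` and `D / A` the centralizer of `F / A` in `C / A`. Then `D / A` is abelian. The part of `θ|_D`
over `μ` vanishes outside of the radical `R_μ` of the pairing `μ([x, y])` on `D`, and its norm is at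
least one, so that `[D : R_μ] ≤ m_μ²`. As the intersection of the `R_μ` is the centre `A` of `D`,
`[D : A] ≤ ∏ m_μ²`, and `[C : D] ≤ [F : A] ^ (12 / 5)` by the theorem on the orders of solvable
linear groups (Dixon, Pálfy and Wolf). So `[S : A] ≤ 3 ^ (k - 1) ∏ m_μ ^ (34 / 5)` with
`∑ m_μ = r`.
-/

set_option autoImplicit false

open Pool.Agent.H541R3.ART

/-- Let `G` be the Galois group of `E/K`, let `ζ_E` have order `r` at `s₀`, and let `S` be a solvable
normal subgroup of `G` (for example `S = G`, if `G` is solvable). There is a normal subgroup `B ≤ S` of
`G` of index `[S : B] ≤ 19 ^ r`, `[S : B] ^ 5 ≤ 2 ^ (34 (r - 1))`, such that every irreducible character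
`χ` of `G` whose Artin L-function `L χ` has a zero or a pole at `s₀` is trivial on the commutator
subgroup of `B`; and for all linear characters `μ` of `B` below `χ` the Hecke L-function of `μ` over
the fixed field of `B` has a zero at `s₀`. -/
theorem Pool.Agent.Results.MP_d2121a_nt.AlmostAbelian.result
    (G : Type) [Group G] [Finite G] (s₀ : ℂ) (A : ArtinData G s₀) (r : ℕ)
    (hr : meromorphicOrderAt (A.Lin ⊥ 1) s₀ = (r : WithTop ℤ))
    (S : Subgroup G) (hn : S.Normal) (hS : Group.IsSolvable S) :
    ∃ B : Subgroup G, B.Normal ∧ B ≤ S ∧ B.relIndex S ≤ 19 ^ r ∧
      B.relIndex S ^ 5 ≤ 2 ^ (34 * (r - 1)) ∧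
      ∀ χ ∈ Irr G, meromorphicOrderAt (A.L χ) s₀ ≠ 0 →
        (∀ x ∈ ⁅B, B⁆, χ x = χ 1) ∧
        ∀ μ : B →* ℂˣ, ∑ᶠ b : B, χ b * (((μ b)⁻¹ : ℂˣ) : ℂ) ≠ 0 →
          0 < meromorphicOrderAt (A.Lin B μ) s₀ :=
  Pool.Agent.Helper503_AD.art_jor A hr S hn hS
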