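import Mathlib
import Pool.Agent.Helper503_AD.Over

/-!
# Zeros and poles of Artin L-functions at a given point occur only in bounded degree

`Pool.Agent.H541R3.ART.Irr G` is the set of irreducible complex characters of the finite group `G`.

`Pool.Agent.H541R3.ART.ArtinData G s₀` is a family of functions with the formal properties of the
Artin L-functions of a Galois extension `E/K` with group `G` near a point `s₀ ≠ 1`: functions
`L χ` for the irreducible characters `χ` of `G` and `Lin H ψ` for the linear characters `ψ` of the
subgroups `H`, such that `L χ` is meromorphic and not identically zero near `s₀` (Brauer), `Lin H ψ`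
has no pole at `s₀` (Artin reciprocity and Hecke), and `Lin H ψ` is the product of the
`L χ ^ ⟨χ|_H, ψ⟩` (induction). So `Lin H ψ` stands for the Hecke L-function of `ψ` over the fixed
field of `H`, and `Lin ⊥ 1` for the Dedekind zeta function of `E`.

`Pool.Agent.R362.stab N μ` is the stabilizer of the linear character `μ` of the normal subgroup `N`,
the set of all `g` with `μ (g a g⁻¹) = μ a` for all `a` in `N`. A character `χ` lies over `μ` if
`∑ n ∈ N, χ n (μ n)⁻¹ ≠ 0`.

If Artin's conjecture is true, then an Artin L-function `L χ` which vanishes at `s₀` contributes the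
order `χ(1)` or more to the zero of `ζ_E` at `s₀`, so `χ(1)` is at most the order `r` of this zero.
Without the conjecture the zeros and poles of the `L χ` might cancel, and nothing was known about
the degrees, except that for `r = 1` only `χ` of degree one occur (Stark), and that there are at most
`r²` characters `χ` (Foote and Murty).  Here (the case `N = 1`, `S = G`) the degree is bounded by a
power of `r`, if `G` is solvable: `χ(1) ≤ r ^ (17 / 5)`.  In other words, `ζ_E` has a zero of order at
least `χ(1) ^ (5 / 17)` wherever `L χ` has a zero or a pole.  For an arbitrary group `G` with a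
solvable normal subgroup `S` the result is `χ(1) ≤ [G : S] r ^ (17 / 5)`.  More generally, `r` is
replaced by the order `m` of the Hecke L-function of a linear character `μ` of a normal subgroup `N`
below `χ`, and `χ(1)` by its quotient by the index of the stabilizer of `μ`.

Proof.  The orders of the `L χ` at `s₀` are the multiplicities of a Heilbronn function of degree
`r`. Its part over `μ` is a Heilbronn function `θ` of degree `m` on the stabilizer of `μ`. One is
reduced to the case that `χ` is a faithful character of `G` which occurs in `θ`, and `S` a solvable
normal subgroup of `G`.  If `A ≤ S` is a noncentral abelian normal subgroup of `G`, then `θ|_A` is a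
genuine character in which all `t` conjugates of a linear character below `χ` have the same
multiplicity `k`, so that `t k ≤ m`, and one passes to the stabilizer again.  If there is no such `A`
(and the centre `Z` of `G` is contained in `S`), let `F / Z` be the socle of `S / Z`.  It is abelian of
order `d²`, `S / F` acts faithfully on it, and it is a sum of irreducible modules, so that
`|S / F| ≤ |F / Z| ^ (12 / 5)` by the theorem on the orders of solvable linear groups (Dixon, Pálfy
and Wolf).  The part of `θ` over the central character of `χ` is a multiple of the character of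
degree `d` on `F`, so that `d ≤ m`, and `η(1)² ≤ |S / Z| ≤ d² d ^ (24 / 5)` for the constituents `η`
of `χ|_S`.
-/

set_option autoImplicit false

open Pool.Agent.H541R3.ART Pool.Agent.R362

/-- Let `G` be the Galois group of `E/K`, let `N` be a normal subgroup of `G` and `μ` a linear
character of `N`, and let the Hecke L-function of `μ` over the fixed field of `N` have order `m` at
`s₀` (for `N = 1` it is `ζ_E`). Let `S` be a normal subgroup of the stabilizer `T` of `μ` which is
solvable modulo `N`, for example `S = T` if `G` is solvable. If the Artin L-function `L χ` of an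
irreducible character `χ` of `G` over `μ`, of degree `d`, has a zero or a pole at `s₀`, then the
restriction of `χ` to `S` has an irreducible constituent `η` of degree `e ≤ m ^ (17 / 5)`, and
`d ≤ [G : S] e`. So `L χ` is holomorphic and nonzero at `s₀` for all `χ` over `μ` of degree larger
than `[G : S] m ^ (17 / 5)`; in particular (`N = 1`, `S = G`) for all `χ` of degree larger than
`r ^ (17 / 5)`, if `G` is solvable and `ζ_E` has order `r` at `s₀`. -/
theorem Pool.Agent.Results.MP_d2121a_nt.BoundedDegree.result
    (G : Type) [Group G] [Finite G] (s₀ : ℂ) (A : ArtinData G s₀)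
    (N : Subgroup G) [N.Normal] (μ : N →* ℂˣ) (m : ℕ)
    (hm : meromorphicOrderAt (A.Lin N μ) s₀ = (m : WithTop ℤ))
    (S : Subgroup (stab N μ)) (hn : S.Normal)
    (hS : Group.IsSolvable (S.map (QuotientGroup.mk' (N.subgroupOf (stab N μ)))))
    (χ : G → ℂ) (hχ : χ ∈ Irr G) (hμ : ∑ᶠ n : N, χ n * (((μ n)⁻¹ : ℂˣ) : ℂ) ≠ 0)
    (h : meromorphicOrderAt (A.L χ) s₀ ≠ 0) :
    ∃ d e : ℕ, χ 1 = d ∧ d ≤ (stab N μ).index * (S.index * e) ∧ e ^ 5 ≤ m ^ 17 ∧
      ∃ η ∈ Irr S, η 1 = e ∧ ∑ᶠ s : S, χ (s : stab N μ) * η s⁻¹ ≠ 0 :=
  Pool.Agent.Helper503_AD.art_over A N μ hm S hn hS hχ hμ h
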