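import Pool.Agent.Helper27.NP.Zeta

/-!
# Products of Artin L-functions over the characters with a given kernel

`Pool.Agent.H541R3.ART.Irr G` is the set of irreducible complex characters of the finite group `G`.

`Pool.Agent.H541R3.ART.ArtinData G s₀` is a family of functions with the formal properties of the
Artin L-functions of a Galois extension `E/K` with group `G` near a point `s₀ ≠ 1`: functions
`L χ` for the irreducible characters `χ` of `G` and `Lin H ψ` for the linear characters `ψ` of the
subgroups `H`, such that `L χ` is meromorphic and not identically zero near `s₀` (Brauer), `Lin H ψ`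
has no pole at `s₀` (Artin reciprocity and Hecke), and `Lin H ψ` is the product of the
`L χ ^ ⟨χ|_H, ψ⟩` (induction). So `Lin H 1` stands for the Dedekind zeta function of the fixed field
of `H`.

The theorem of Aramata and Brauer says that `ζ_E / ζ_K`, the product of the `L χ ^ χ(1)` over all
`χ ≠ 1`, is holomorphic at `s₀`. Here this is shown for the product over all `χ` with a given kernel,
and for the alternating product of the zeta functions of the intersections of any finite number of
Galois subextensions (Brauer: two subextensions).

Proof. Let `Θ = ∑ ord_{s₀} (L χ) χ`, a Heilbronn function. The minimal normal subgroups `T` of `G / M`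
commute elementwise with each other. The element `∏ (1 - e_T)` of the group algebra, where `e_T` is
the average of the elements of `T`, projects to the characters with kernel `M`. As
`1 - e_T = (1 / 2 |T|) ∑ (2 - t - t⁻¹)`, the value of `Θ` at the product is an average of sums over
abelian subgroups `B` generated by commuting elements `t`, and a linear character `β` of `B`, which
has a nonnegative multiplicity in `Θ`, gives `∏ (2 - β(t) - β(t)⁻¹) ≥ 0`.
-/

set_option autoImplicit false

open Pool.Agent.H541R3.ART

/-- (1) Let `M` be a normal subgroup of `G` and let `P` be a subgroup of `G` whose image in `G / M`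
commutes elementwise with the minimal normal subgroups of `G / M` (for example `P = 1`, `P = M`, the
preimage of an abelian normal subgroup or of the centre of `G / M`), and let `ψ` be a linear character
of `P`. Then the product of the `L χ ^ ⟨χ|_P, ψ⟩` over all irreducible characters `χ` of `G` with
kernel `M` is holomorphic at `s₀`. For `P = 1` this is the product of the `L χ ^ χ(1)`.

(2) Let `N₁, …, N_k` be normal subgroups of `G` and `F_I` the fixed field of the subgroup generated by
the `N_i`, `i ∈ I`, that is the intersection of the fixed fields of the `N_i`, `i ∈ I`, and `F_∅ = E`.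
Then the product of the `ζ_{F_I} ^ ((-1) ^ |I|)` over all subsets `I` is holomorphic at `s₀`. -/
theorem Pool.Agent.Results.MP_d2121a_nt.KernelProducts.result
    (G : Type) [Group G] [Finite G] (s₀ : ℂ) (A : ArtinData G s₀) :
    (∀ (M P : Subgroup G) [M.Normal],
      (∀ T : Subgroup (G ⧸ M), Minimal (fun T : Subgroup (G ⧸ M) => T.Normal ∧ T ≠ ⊥) T →
        ∀ p ∈ P, ∀ t ∈ T, (p : G ⧸ M) * t = t * p) →
      ∀ (ψ : P →* ℂˣ) (m : (G → ℂ) → ℕ),
      (∀ χ ∈ Irr G,
        ∑ᶠ h : P, χ h * (((ψ h)⁻¹ : ℂˣ) : ℂ) = (m χ : ℂ) * (Nat.card P : ℂ)) →
      0 ≤ meromorphicOrderAt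
        (fun s => ∏ᶠ χ ∈ {χ | χ ∈ Irr G ∧ ∀ g, χ g = χ 1 ↔ g ∈ M}, A.L χ s ^ m χ) s₀) ∧
    (∀ (k : ℕ) (N : Fin k → Subgroup G), (∀ i, (N i).Normal) →
      0 ≤ meromorphicOrderAt (fun s => ∏ I : Finset (Fin k),
        (A.Lin (⨆ i ∈ I, N i) 1 s) ^ ((-1 : ℤ) ^ I.card)) s₀) :=
  ⟨fun M P _ hP ψ m hm => Pool.Agent.Helper27.NP.part_kernel A M P hP ψ m hm,
    fun _ N hN => Pool.Agent.Helper27.NP.part_zeta A N hN⟩
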