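import Mathlib
import Pool.Agent.Helper576.PB.Mean

/-!
# Upper bounds for the orders of the poles (and zeros) of all Artin L-functions

`Pool.Agent.H541R3.ART.Irr G` is the set of irreducible complex characters of the finite group `G`.

`Pool.Agent.H541R3.ART.ArtinData G s₀` is a family of functions with the formal properties of the
Artin L-functions of a Galois extension `E/K` with group `G` near a point `s₀ ≠ 1`: functions
`L χ` for the irreducible characters `χ` of `G` and `Lin H ψ` for the linear characters `ψ` of the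
subgroups `H`, such that `L χ` is meromorphic and not identically zero near `s₀` (Brauer), `Lin H ψ`
has no pole at `s₀` (Artin reciprocity and Hecke), and `Lin H ψ` is the product of the
`L χ ^ ⟨χ|_H, ψ⟩` (induction). In particular `Lin ⊥ 1` stands for the Dedekind zeta function of `E`.

Artin's conjecture says that the order `n χ` of `L(s, χ)` at `s₀` is not negative. It was known that
`∑ (n χ)² ≤ r²`, where `r` is the order of `ζ_E` at `s₀` (Foote and Murty), so that `|n χ| ≤ r`.
Here there is no condition on the group or on the fields, and the constant is less than `1` and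
depends only on the degrees. For one character `χ` of degree `d > 1` the theorem says
`|n χ| ≤ (1 - 1 / (2 (d + 1)²)) r`; this bounds the order of the pole if there is one.

Proof.  The orders are the multiplicities of a Heilbronn function `θ` with `|θ| ≤ r`, so
`|n χ| ≤ r · mean |χ|`. The mean of `|χ|²` is `1`, and, as `χ` has degree at least `2`, the product
`χ χ̄` contains the trivial character and something else, so the mean of `|χ|⁴` is at least `2`.
Hence `|χ|` cannot be close to `1` almost everywhere, and its mean is less than `1` by a definite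
amount. The same works for combinations of characters `φ` with nonnegative coefficients and without
linear constituents: `mean |φ|⁴ ≥ 2 (mean |φ|²)²`. With `φ` the sum of the `-(n χ) χ` over the poles
this bounds the sum of the squares of the orders of the poles.
-/

set_option autoImplicit false

open Pool.Agent.H541R3.ART Pool.Agent.W446.AS Pool.Agent.Helper576.PB

/-- Let `G` be the Galois group of `E/K`, let `ζ_E` have order `r` at `s₀ ≠ 1`, and let `n χ` be the
order of the Artin L-function `L χ` at `s₀`, for the irreducible characters `χ` of `G`.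

Let `P` be a set of irreducible characters `χ` such that `L χ` has a pole at `s₀`, or a set of
irreducible characters of degrees `> 1` such that the orders `n χ` have the same sign, and let
`κ²` be the sum of the `χ(1)²` for `χ` in `P`. Then
`√(∑_P (n χ)²) ≤ (1 - 1 / (2 (κ + 1)²)) r`.

For one character `χ` of degree `d > 1` this is `|n χ| ≤ (1 - 1 / (2 (d + 1)²)) r`. -/
theorem Pool.Agent.Results.MP_d2121a_nt.UniversalOrders.result
    (G : Type) [Group G] [Finite G] (s₀ : ℂ) (A : ArtinData G s₀) (r : ℕ)
    (hr : meromorphicOrderAt (A.Lin ⊥ 1) s₀ = (r : WithTop ℤ)) (n : (G → ℂ) → ℤ)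
    (hn : ∀ χ ∈ Irr G, meromorphicOrderAt (A.L χ) s₀ = (n χ : WithTop ℤ))
    (P : Finset (G → ℂ)) (hP : ∀ χ ∈ P, χ ∈ Irr G)
    (hsign : (∀ χ ∈ P, n χ < 0) ∨ (∀ χ ∈ P, χ 1 ≠ 1 ∧ n χ ≤ 0) ∨ (∀ χ ∈ P, χ 1 ≠ 1 ∧ 0 ≤ n χ)) :
    √(∑ χ ∈ P, (n χ : ℝ) ^ 2)
      ≤ (1 - 1 / (2 * (√(∑ χ ∈ P, ‖χ 1‖ ^ 2) + 1) ^ 2)) * r := by
  have hord : ∀ χ ∈ Irr G, A.ord χ = n χ := by
    intro χ hχ
    have h1 := A.coe_ord hχ
    rw [hn χ hχ] at h1
    exact WithTop.coe_injective h1
  have hpr : ∀ χ ∈ Irr G, (pr (theta A.ord : G → ℂ) χ).re = (n χ : ℝ) := by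
    intro χ hχ
    rw [pr_theta A hχ, Complex.intCast_re, hord χ hχ]
  have hlin : ∀ χ ∈ Irr G, χ 1 = 1 → 0 ≤ n χ := by
    intro χ hχ h1
    obtain ⟨t, e, ht, hte, he1, -⟩ := uni_main hχ A.isHeilbronn (theta_virt A.ord)
      (A.theta_one hr)
    rw [h1] at hte
    have h2 : 1 = t * e := by exact_mod_cast hte
    have h3 : e = 1 := Nat.eq_one_of_mul_eq_one_left h2.symm
    have h4 := he1 h3
    rw [hpr χ hχ] at h4
    exact_mod_cast h4
  have h1 : ∀ χ ∈ P, χ 1 ≠ 1 := by
    intro χ hχ h1
    rcases hsign with h | h | h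
    · have := hlin χ (hP χ hχ) h1
      have := h χ hχ
      omega
    · exact (h χ hχ).1 h1
    · exact (h χ hχ).1 h1
  refine sum_bound hP h1 (n := fun χ => (n χ : ℝ)) ?_ A.isHeilbronn (A.theta_one hr)
    (fun χ hχ => hpr χ (hP χ hχ))
  rcases hsign with h | h | h
  · exact Or.inl fun χ hχ => by exact_mod_cast (h χ hχ).le
  · exact Or.inl fun χ hχ => by exact_mod_cast (h χ hχ).2
  · exact Or.inr fun χ hχ => by exact_mod_cast (h χ hχ).2
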